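import Pool.Agent.N393.C13.Ports
import Pool.Agent.R890.FF.Alg

set_option autoImplicit false
set_option linter.unusedSectionVars false
set_option linter.unusedVariables false
set_option synthInstance.maxHeartbeats 400000
set_option synthInstance.maxSize 2048

/-!
# Flows with allowed values in classes of graphs closed under contractions of connected sets
-/

namespace Pool.Agent.U513.TH

open Finset Relation Pool.Agent.TH362.TF Pool.Agent.TH362.TF.Four Pool.Agent.R890.FF Pool.Agent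
open Pool.Agent.TH362.TF.Contr Pool.Agent.R140.PK Pool.Agent.N393.C13
open Pool.Agent.TH676.A (Alg Ex2 FlowOn bd crs mem_crs glue sum_cut)

variable {V E : Type} [Fintype V] [DecidableEq V] [Fintype E] [DecidableEq E]

/-- **Properties of classes closed under contractions of connected sets.** -/
theorem class_prop {Cl P : (E → V) → (E → V) → Prop}
    (hcl : ∀ s t (π : V → V), FC s t univ π → Cl s t → Cl (fun e => π (s e)) (fun e => π (t e)))
    (hfl : ∀ s t, N1 s t univ → Cl s t → NZ s t univ ∨ PQ s t univ)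
    (hnz : ∀ s t, NZ s t univ → P s t)
    (hsum : ∀ {s t : E → V} (A1 A2 : Finset V) (a1 a2 : V), a1 ∈ A1 → a2 ∈ A2 → Disjoint A1 A2 →
      (cu s t A1).card = 3 → cu s t A2 = cu s t A1 → P (R140.PK.ctr A1 a1 s) (R140.PK.ctr A1 a1 t) →
      P (R140.PK.ctr A2 a2 s) (R140.PK.ctr A2 a2 t) → P s t)
    (hpet : ∀ {s t : E → V} {κ : V → Fin 10} {c : Fin 10 → V}, PetComp s t κ c →
      P (R140.PK.ctr (univ.image c) (c 0) s) (R140.PK.ctr (univ.image c) (c 0) t) → P s t)
    (s t : E → V) (hn : N1 s t univ) (hc : Cl s t) : P s t := by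
  classical
  by_contra hcon
  obtain ⟨π, hπ, hM⟩ := exists_MinP P s t hn hcon
  rcases hfl (fun e => π (s e)) (fun e => π (t e)) hM.n1 (hcl s t π hπ hc) with h1 | h1
  · exact hM.np (hnz _ _ h1)
  · obtain ⟨κ, c, hc⟩ := hM.pet h1 (fun A1 A2 a1 a2 b1 b2 b3 b4 b5 b6 b7 =>
      hsum A1 A2 a1 a2 b1 b2 b3 b4 b5 b6 b7)
    obtain ⟨h2, h3⟩ := hc.conn
    exact hM.np (hpet hc (hM.mn _ _ (mem_image_of_mem _ (mem_univ _)) h2 h3))

section
variable {Γ : Type} [AddCommGroup Γ] {A : Γ → Prop}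

theorem bd_cut (h2 : Ex2 Γ) (s t : E → V) (f : E → Γ) (v : V) :
    bd s t f v = ∑ e ∈ cut s t univ (fun u => decide (u = v)), f e := by
  unfold bd cut
  rw [Finset.sum_filter]
  refine Finset.sum_congr rfl fun e _ => ?_
  by_cases h3 : s e = v <;> by_cases h4 : t e = v <;> simp [h3, h4, h2.self]

theorem bd_out {s t : E → V} {B : Finset V} {a : V} (ha : a ∈ B) {φ : E → Γ}
    (h : ∀ v, bd (R140.PK.ctr B a s) (R140.PK.ctr B a t) φ v = 0) (x : V) (hx : x ∉ B) :
    bd s t φ x = 0 := by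
  have h1 := h x
  unfold bd R140.PK.ctr at h1
  unfold bd
  have key : ∀ y : V, ((if y ∈ B then a else y) = x) ↔ y = x := by
    intro y
    by_cases hy : y ∈ B
    · rw [if_pos hy]
      constructor
      · intro h; exact absurd (h ▸ ha) hx
      · intro h; exact absurd (h ▸ hy) hx
    · rw [if_neg hy]
  simpa only [key] using h1

/-- sums along cuts with three edges -/
theorem alg_sum (hA : Alg A) {s t : E → V} (A1 A2 : Finset V) (a1 a2 : V) (h1 : a1 ∈ A1)
    (h2 : a2 ∈ A2) (hd : Disjoint A1 A2) (h3 : (cu s t A1).card = 3) (hc : cu s t A2 = cu s t A1)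
    (c1 : FlowOn A (R140.PK.ctr A1 a1 s) (R140.PK.ctr A1 a1 t) ∅ ∅)
    (c2 : FlowOn A (R140.PK.ctr A2 a2 s) (R140.PK.ctr A2 a2 t) ∅ ∅) : FlowOn A s t ∅ ∅ := by
  classical
  obtain ⟨φ, p2, -, p1⟩ := c1
  obtain ⟨ψ, q2, -, q1⟩ := c2
  have p3 := bd_out h1 p2
  have q3 := bd_out h2 q2
  have p1' : ∀ e, A (φ e) := fun e => p1 e (notMem_empty e) (notMem_empty e)
  have q1' : ∀ e, A (ψ e) := fun e => q1 e (notMem_empty e) (notMem_empty e)
  have hcrs : ∀ B : Finset V, crs s t B = cu s t B := by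
    intro B
    ext e
    rw [mem_cu, mem_crs]
  have hφ : ∑ e ∈ cu s t A2, φ e = 0 := by
    rw [← hcrs]
    exact sum_cut hA.two (fun v hv => p3 v (fun hv1 => disjoint_left.1 hd hv1 hv))
  have hψ : ∑ e ∈ cu s t A1, ψ e = 0 := by
    rw [← hcrs]
    exact sum_cut hA.two (fun v hv => q3 v (fun hv1 => disjoint_left.1 hd hv hv1))
  rw [hc] at hφ
  obtain ⟨x, y, z, hxy, hxz, hyz, hS⟩ := card_eq_three.1 h3
  rw [hS, sum_insert (by simp [hxy, hxz]), sum_pair hyz] at hφ hψ
  have hφz := hA.two.three hφ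
  have hψz := hA.two.three hψ
  obtain ⟨σ, s0, s1, s2⟩ := hA.hom (φ x) (φ y) (ψ x) (ψ y) (p1' x) (p1' y) (hφz ▸ p1' z)
    (q1' x) (q1' y) (hψz ▸ q1' z)
  refine glue (Y := A1) (f1 := ψ) (f2 := φ) σ s0
    (fun v hv => q3 v (fun hv1 => disjoint_left.1 hd hv hv1)) p3 (fun e _ => q1' e)
    (fun e _ _ => p1' e) ?_
  intro e he
  rw [hcrs, hS, mem_insert, mem_insert, mem_singleton] at he
  rcases he with rfl | rfl | rfl
  · exact s1.symm
  · exact s2.symm
  · rw [hφz, hψz, map_add, s1, s2]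

/-- the Petersen graph -/
theorem alg_pet (hA : Alg A) {val : Fin 10 → Fin 10 → Γ} (hv : Pet A val) {s t : E → V}
    {κ : V → Fin 10} {c : Fin 10 → V} (h : PetComp s t κ c)
    (hc : FlowOn A (R140.PK.ctr (univ.image c) (c 0) s) (R140.PK.ctr (univ.image c) (c 0) t)
      ∅ ∅) : FlowOn A s t ∅ ∅ := by
  classical
  obtain ⟨φ, p2, -, p1⟩ := hc
  have p1' : ∀ e, A (φ e) := fun e => p1 e (notMem_empty e) (notMem_empty e)
  have hm : ∀ k, c k ∈ univ.image c := fun k => mem_image_of_mem _ (mem_univ _)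
  have p3 := bd_out (hm 0) p2
  have hcl : ∀ e, s e ∈ univ.image c ↔ t e ∈ univ.image c := by
    intro e
    rw [mem_image, mem_image]
    constructor
    · rintro ⟨k, _, hk⟩
      obtain ⟨l, hl⟩ := h.cl e k hk.symm
      exact ⟨l, mem_univ _, hl.symm⟩
    · rintro ⟨k, _, hk⟩
      obtain ⟨l, hl⟩ := h.cl' e k hk.symm
      exact ⟨l, mem_univ _, hl.symm⟩
  refine ⟨fun e => if s e ∈ univ.image c then val (κ (s e)) (κ (t e)) else φ e, fun v => ?_,
    fun e he => absurd he (notMem_empty e), fun e _ _ => ?_⟩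
  · by_cases hv' : v ∈ univ.image c
    · obtain ⟨k, _, rfl⟩ := mem_image.1 hv'
      obtain ⟨e, he1, he2, he3⟩ := h.star k
      rw [bd_cut hA.two, he3, Finset.sum_image (fun i _ j _ hij => he1 hij)]
      have key : ∀ j, (if s (e j) ∈ univ.image c then val (κ (s (e j))) (κ (t (e j)))
          else φ (e j)) = val k (nb k j) := by
        intro j
        rcases he2 j with ⟨a, b⟩ | ⟨a, b⟩
        · have h1 : s (e j) ∈ univ.image c := by rw [a]; exact hm _
          rw [if_pos h1, a, b, h.kc, h.kc]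
        · have h1 : s (e j) ∈ univ.image c := by rw [a]; exact hm _
          rw [if_pos h1, a, b, h.kc, h.kc, hv.sym]
      rw [Fin.sum_univ_three]
      simp only [key]
      exact hv.sum k
    · refine Eq.trans ?_ (p3 v hv')
      unfold bd
      refine Finset.sum_congr rfl fun e _ => ?_
      by_cases h5 : s e = v
      · have h6 : s e ∉ univ.image c := h5 ▸ hv'
        simp only [h6, if_false]
      · by_cases h7 : t e = v
        · have h6 : s e ∉ univ.image c := fun h' => hv' (h7 ▸ (hcl e).1 h')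
          simp only [h6, if_false]
        · simp only [h5, h7, if_false]
  · beta_reduce
    split_ifs
    · exact hv.al _ _
    · exact p1' e

theorem alg_nz {s t : E → V} (h4 : ∃ σ : F →+ Γ, ∀ x, x ≠ 0 → A (σ x)) (h : NZ s t univ) :
    FlowOn A s t ∅ ∅ := by
  obtain ⟨φ, h1, h2⟩ := h
  obtain ⟨σ, hσ⟩ := h4
  refine ⟨fun e => σ (φ e), fun v => ?_, fun x hx => absurd hx (notMem_empty x),
    fun x _ _ => hσ _ (h1 x (mem_univ x))⟩
  have h3 : bd s t (fun e => σ (φ e)) v = σ (∑ e, ((if s e = v then φ e else 0) +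
      (if t e = v then φ e else 0))) := by
    unfold bd
    rw [map_sum]
    refine Finset.sum_congr rfl fun e _ => ?_
    rw [map_add]
    split_ifs <;> simp
  rw [h3]
  have h5 : (∑ e, ((if s e = v then φ e else 0) + (if t e = v then φ e else 0))) = 0 := h2 v
  rw [h5, map_zero]

/-- **Flows with allowed values in classes closed under contractions of connected sets.** -/
theorem alg_class' (hA : Alg A) {val : Fin 10 → Fin 10 → Γ} (hv : Pet A val)
    (h4 : ∃ σ : F →+ Γ, ∀ x, x ≠ 0 → A (σ x)) {Cl : (E → V) → (E → V) → Prop}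
    (hcl : ∀ s t (π : V → V), FC s t univ π → Cl s t → Cl (fun e => π (s e)) (fun e => π (t e)))
    (hfl : ∀ s t, N1 s t univ → Cl s t → NZ s t univ ∨ PQ s t univ)
    (s t : E → V) (hn : N1 s t univ) (hc : Cl s t) : FlowOn A s t ∅ ∅ :=
  class_prop (P := fun s t => FlowOn A s t ∅ ∅) hcl hfl (fun _ _ h => alg_nz h4 h)
    (fun A1 A2 a1 a2 b1 b2 b3 b4 b5 b6 b7 => alg_sum hA A1 A2 a1 a2 b1 b2 b3 b4 b5 b6 b7)
    (fun h1 h2 => alg_pet hA hv h1 h2) s t hn hc

end

end Pool.Agent.U513.TH
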