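import Mathlib.Data.List.Chain
import Mathlib.Data.List.Nodup

set_option autoImplicit false

/-!
# Circuits, paths and theta graphs in multigraphs

A multigraph is given by the ends `s e`, `t e` of its edges `e`.
-/

namespace Pool.Agent.U513.TH

/-- The graph has a circuit with `n` vertices: there are `n` different vertices
`v 0, ..., v (n - 1)` such that an edge joins `v i` and `v (i + 1)` for each `i`, where the indices
are read modulo `n`. -/
def HasCircuit {V E : Type} (s t : E → V) (n : ℕ) : Prop :=
  ∃ v : ℕ → V, (∀ i < n, ∀ j < n, v i = v j → i = j) ∧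
    ∀ i < n, ∃ e, (s e = v i ∧ t e = v ((i + 1) % n)) ∨ (s e = v ((i + 1) % n) ∧ t e = v i)

/-- The list is the list of the vertices of a path: the vertices are different, and any two
consecutive ones are joined by an edge. -/
def IsPath {V E : Type} (s t : E → V) (l : List V) : Prop :=
  l.Nodup ∧ l.IsChain (fun x y => ∃ e, (s e = x ∧ t e = y) ∨ (s e = y ∧ t e = x))

/-- A theta graph: two vertices `a` and `b` which are joined by three paths with `i`, `j` and `k`
inner vertices, such that no two of the paths have a common inner vertex. -/
def HasTheta {V E : Type} (s t : E → V) (i j k : ℕ) : Prop :=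
  ∃ (a b : V) (A B C : List V), A.length = i ∧ B.length = j ∧ C.length = k ∧
    IsPath s t (a :: (A ++ [b])) ∧ IsPath s t (a :: (B ++ [b])) ∧ IsPath s t (a :: (C ++ [b])) ∧
    (∀ x ∈ A, x ∉ B) ∧ (∀ x ∈ A, x ∉ C) ∧ ∀ x ∈ B, x ∉ C

/-- There is a theta graph with at least 17 vertices which contains a circuit with at least 16
vertices: `i + j + 2` is the number of the vertices of the circuit which consists of the first two
paths, and `i + j + k + 2` is the number of all vertices of the theta graph. -/
def LargeTheta {V E : Type} (s t : E → V) : Prop :=
  ∃ i j k, 0 < i ∧ 0 < j ∧ 16 ≤ i + j + 2 ∧ 17 ≤ i + j + k + 2 ∧ HasTheta s t i j k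

/-- The condition: no circuit has more than fifteen vertices, or no path has more than sixteen
vertices, or (this includes both cases) there is no large theta graph. -/
def Condition {V E : Type} (s t : E → V) : Prop :=
  (∀ n, 15 < n → ¬ HasCircuit s t n) ∨ (∀ l, IsPath s t l → l.length ≤ 16) ∨ ¬ LargeTheta s t

end Pool.Agent.U513.TH
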