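import Pool.Agent.U513.TH.Core
import Pool.Agent.U513.TH.Defs
import Pool.Agent.U513.TH.Alg

set_option autoImplicit false
set_option linter.unusedSectionVars false

/-!
# Multigraphs without large theta graphs
-/

namespace Pool.Agent.U513.TH

open Finset Pool.Agent.R145.Cir Pool.Agent.R890.FF Pool.Agent.R140.PK Pool.Agent.TH362.TF
  Pool.Agent.N393.C13 Pool.Agent
open Pool.Agent.U513.C15 (close)

section
variable {V E : Type} [Fintype V] [DecidableEq V] [DecidableEq E]

/-- no theta graph with at least seventeen vertices and a circuit with at least sixteen -/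
def NoTheta (s t : E → V) (S : Finset E) : Prop := Sm (nbG s t S)

theorem NoTheta.map {s t : E → V} {S : Finset E} {π : V → V} (hπ : FC s t S π)
    (h : NoTheta s t S) : NoTheta (fun e => π (s e)) (fun e => π (t e)) S := by
  intro a b A B C hθ hA hB h14
  obtain ⟨a', b', A', B', C', hθ', l1, l2, l3⟩ := hθ.lift hπ
  have hA0 : 0 < A.length := List.length_pos_iff.mpr hA
  have hB0 : 0 < B.length := List.length_pos_iff.mpr hB
  have := h a' b' A' B' C' hθ' (List.length_pos_iff.mp (by omega))
    (List.length_pos_iff.mp (by omega)) (by omega)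
  omega

/-- **graphs without isthmus and without large theta graphs** -/
theorem main (s t : E → V) (S : Finset E) (hn : N1 s t S) (hc : NoTheta s t S) :
    NZ s t S ∨ PQ s t S := by
  classical
  by_contra hno
  rw [not_or] at hno
  obtain ⟨π, hπ, hM⟩ := exists_Mc s t S hn hno.1 hno.2
  have hnb : ∀ y ∈ odd (fun e => π (s e)) (fun e => π (t e)) S,
      ∃ z, Nb (fun e => π (s e)) (fun e => π (t e)) S y z := by
    intro y hy
    rw [hM.odd_nb y] at hy
    have h1 : 0 < (Finset.univ.filter
      (Nb (fun e => π (s e)) (fun e => π (t e)) S y)).card := by omega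
    obtain ⟨z, hz⟩ := Finset.card_pos.1 h1
    exact ⟨z, (Finset.mem_filter.1 hz).2⟩
  refine core (G := nbG (fun e => π (s e)) (fun e => π (t e)) S) ⟨?_, ?_⟩ ?_
    (leaves.2.2.2.1 _ _ _ _ _ hM) (hc.map hπ) _ hM.odd18 hnb
  · intro x y z h1 h2 h3
    exact hM.tri h1 h2 h3
  · intro x y z w h1 h2 h3 h4 h5 h6
    exact hM.four h1 h2 h3 h4 h5 h6
  · intro x y hxy
    have h1 : 0 < (Finset.univ.filter
        (Nb (fun e => π (s e)) (fun e => π (t e)) S x)).card :=
      Finset.card_pos.2 ⟨y, Finset.mem_filter.2 ⟨Finset.mem_univ _, hxy⟩⟩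
    have h2 := hM.nb_ne_one x
    have h3 := hM.nb_ne_two x
    have h4 : 2 < (Finset.univ.filter
        (Nb (fun e => π (s e)) (fun e => π (t e)) S x)).card := by omega
    obtain ⟨a, ha, b, hb, c, hc', n1, n2, n3⟩ := Finset.two_lt_card.mp h4
    exact ⟨a, b, c, n1, n3, n2, (Finset.mem_filter.1 ha).2, (Finset.mem_filter.1 hb).2,
      (Finset.mem_filter.1 hc').2⟩

end

section
variable {V E : Type} [Fintype V] [DecidableEq V] [Fintype E] [DecidableEq E]

theorem pa_of {s t : E → V} {l : List V} (hl : IsPath s t l) : Pa (nbG s t univ) l := by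
  refine ⟨hl.1, ?_⟩
  obtain ⟨h1, h2⟩ := hl
  induction l with
  | nil => simp
  | cons x l ih =>
    rcases l with _ | ⟨y, l⟩
    · simp
    · rw [List.isChain_cons_cons] at h2 ⊢
      rw [List.nodup_cons] at h1
      refine ⟨⟨?_, ?_⟩, ih h1.2 h2.2⟩
      · rintro rfl
        exact h1.1 (by simp)
      · obtain ⟨e, he⟩ := h2.1
        exact ⟨e, mem_univ e, he⟩

theorem path_of {s t : E → V} {l : List V} (hl : Pa (nbG s t univ) l) : IsPath s t l := by
  refine ⟨hl.1, hl.2.imp ?_⟩
  rintro x y ⟨_, e, _, he⟩
  exact ⟨e, he⟩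

theorem circuit_of {s t : E → V} {l : List V} (hl : Ci (nbG s t univ) l) :
    HasCircuit s t l.length := by
  have hpos : 0 < l.length := by
    have := hl.2.1
    omega
  refine ⟨fun i => l.getD i (l[0]'hpos), ?_, ?_⟩
  · intro i hi j hj hij
    simp only [List.getD_eq_getElem?_getD, List.getElem?_eq_getElem hi,
      List.getElem?_eq_getElem hj, Option.getD_some] at hij
    exact (List.Nodup.getElem_inj_iff hl.1.1).mp hij
  · intro i hi
    have hj : (i + 1) % l.length < l.length := Nat.mod_lt _ hpos
    simp only [List.getD_eq_getElem?_getD, List.getElem?_eq_getElem hi,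
      List.getElem?_eq_getElem hj, Option.getD_some]
    have h1 := adj_ix hl (List.getElem?_eq_getElem hi)
      (List.getElem?_eq_getElem hj) (by
      unfold Ai
      rcases Nat.lt_or_ge (i + 1) l.length with h | h
      · left; exact Nat.mod_eq_of_lt h
      · right; right; left
        have : i + 1 = l.length := by omega
        exact ⟨this, by rw [this, Nat.mod_self]⟩)
    obtain ⟨_, e, _, he⟩ := h1
    refine ⟨e, ?_⟩
    rcases he with ⟨h3, h4⟩ | ⟨h3, h4⟩
    · exact Or.inl ⟨h3, h4⟩
    · exact Or.inr ⟨h3, h4⟩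

/-- large theta graphs contain large circuits and long paths -/
theorem large {s t : E → V} (h : LargeTheta s t) :
    (∃ n, 15 < n ∧ HasCircuit s t n) ∧ ∃ l, IsPath s t l ∧ 16 < l.length := by
  obtain ⟨i, j, k, hi, hj, h16, h17, a, b, A, B, C, rfl, rfl, rfl, pa, pb, pc, ab, ac, bc⟩ := h
  have pa' := pa_of pa
  have pb' := pa_of pb
  have pc' := pa_of pc
  have e : ∀ L : List V, a :: (L ++ [b]) = [a] ++ (L ++ [b]) := fun _ => rfl
  have sep : ∀ L : List V, Pa (nbG s t univ) (a :: (L ++ [b])) → a ∉ L ∧ b ∉ L := by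
    intro L hL
    rw [e, pa_append, pa_append (l := L)] at hL
    obtain ⟨_, ⟨_, _, p2, _⟩, p4, _⟩ := hL
    exact ⟨fun h => p4 a (by simp) (List.mem_append_left _ h), fun h => p2 b h (by simp)⟩
  obtain ⟨aB, bB⟩ := sep B pb'
  obtain ⟨aC, bC⟩ := sep C pc'
  have hc := close (M := a :: (A ++ [b])) (q := B) pa' (by simp) (by
    rw [e, List.getLast?_append_of_ne_nil _ (by simp)]
    simp) pb' (by
    intro x hx hx2
    simp only [List.mem_cons, List.mem_append, List.mem_nil_iff, or_false] at hx2
    rcases hx2 with rfl | hx2 | rfl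
    · exact aB hx
    · exact ab x hx2 hx
    · exact bB hx) (by simp only [List.length_cons, List.length_append]; omega)
  constructor
  · refine ⟨_, ?_, circuit_of hc⟩
    simp only [List.length_cons, List.length_append, List.length_reverse, List.length_nil]
    omega
  · refine ⟨C.reverse ++ ((a :: (A ++ [b])) ++ B.reverse), path_of ?_, ?_⟩
    · rw [pa_append]
      rw [e, pa_append, pa_append (l := C)] at pc'
      obtain ⟨_, ⟨q1, _, _, _⟩, _, q2⟩ := pc'
      refine ⟨pa_reverse.2 q1, hc.1, ?_, ?_⟩
      · intro x hx hx2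
        rw [List.mem_reverse] at hx
        simp only [List.mem_cons, List.mem_append, List.mem_nil_iff, or_false,
          List.mem_reverse] at hx2
        rcases hx2 with (rfl | hx2 | rfl) | hx2
        · exact aC hx
        · exact ac x hx2 hx
        · exact bC hx
        · exact bc x hx2 hx
      · intro u hu v hv
        rw [List.getLast?_reverse] at hu
        simp only [List.cons_append, List.head?_cons, Option.mem_def, Option.some.injEq] at hv
        subst hv
        refine (q2 a (by simp) u ?_).symm
        rw [List.head?_append]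
        rw [Option.mem_def] at hu
        rw [hu]
        rfl
    · simp only [List.length_cons, List.length_append, List.length_reverse, List.length_nil]
      omega

/-- the form of the condition which is used in the results -/
theorem NoTheta.of {s t : E → V} (hcond : Condition s t) : NoTheta s t univ := by
  have h : ¬ LargeTheta s t := by
    intro hL
    obtain ⟨⟨n, hn, hn'⟩, l, hl, hl'⟩ := large hL
    rcases hcond with h | h | h
    · exact h n hn hn'
    · have := h l hl
      omega
    · exact h hL
  intro a b A B C hθ hA hB h14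
  by_contra hcon
  have hA0 : 0 < A.length := List.length_pos_iff.mpr hA
  have hB0 : 0 < B.length := List.length_pos_iff.mpr hB
  exact h ⟨_, _, _, hA0, hB0, by omega, by omega, a, b, A, B, C, rfl, rfl, rfl, path_of hθ.pa,
    path_of hθ.pb, path_of hθ.pc, hθ.ab, hθ.ac, hθ.bc⟩

theorem flow (s t : E → V) (hn : N1 s t univ) (hc : NoTheta s t univ) :
    NZ s t univ ∨ PQ s t univ := main s t univ hn hc

/-- flows with allowed values -/
theorem alg {Γ : Type} [AddCommGroup Γ] {A : Γ → Prop} (hA : TH676.A.Alg A)
    {val : Fin 10 → Fin 10 → Γ} (hv : Pet A val)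
    (h4 : ∃ σ : TH362.TF.F →+ Γ, ∀ x, x ≠ 0 → A (σ x))
    (s t : E → V) (hn : N1 s t univ) (hc : NoTheta s t univ) : TH676.A.FlowOn A s t ∅ ∅ :=
  alg_class' hA hv h4 (Cl := fun s t => NoTheta s t univ) (fun _ _ _ hπ h => h.map hπ)
    (fun s t h1 h2 => flow s t h1 h2) s t hn hc

end

end Pool.Agent.U513.TH
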