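import Pool.Agent.U513.TH.Lift
import Pool.Agent.U513.C15.Main

set_option autoImplicit false

/-!
# Theta graphs in graphs of girth five
-/

namespace Pool.Agent.U513.TH

open Pool.Agent.R145.Cir Pool.Agent.N393.C13 Pool.Agent.U513.C15

section
variable {V : Type} {G : SimpleGraph V}

/-- a circuit and a path between two of its vertices -/
theorem theta_pos {K q : List V} (hK : Ci G K) {a b : V} {i j : ℕ} (hi : K[i]? = some a)
    (hj : K[j]? = some b) (hij : i < j) (hq : Pa G (a :: (q ++ [b]))) (hd : ∀ x ∈ q, x ∉ K) :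
    ∃ Y Z, Theta G a b Y Z q ∧ Y.length + (i + 1) = j ∧ Y.length + Z.length + 2 = K.length := by
  obtain ⟨X, W', e, hX⟩ := split_at hi
  rw [e] at hj
  obtain ⟨Y, W, e2, hY⟩ := split_next hX hij hj
  rw [e2] at e
  obtain ⟨hp, hl, hjo⟩ := hK
  have e1 : K = (X ++ [a]) ++ (Y ++ (b :: W)) := by rw [e]; simp
  have e3 : K = X ++ ((a :: (Y ++ [b])) ++ W) := by rw [e]; simp
  have hp1 := hp
  rw [e1, pa_append (l := X ++ [a]), pa_append (l := Y)] at hp1
  obtain ⟨p1, ⟨pY, pbW, dY, _⟩, d1, _⟩ := hp1
  have hp3 := hp
  rw [e3, pa_append (l := X), pa_append (l := a :: (Y ++ [b]))] at hp3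
  obtain ⟨_, ⟨p2, _, d2, _⟩, d3, _⟩ := hp3
  refine ⟨Y, X.reverse ++ W.reverse, ⟨p2, ?_, hq, ?_, ?_, ?_⟩, by omega, ?_⟩
  · have e4 : a :: ((X.reverse ++ W.reverse) ++ [b]) = (X ++ [a]).reverse ++ (b :: W).reverse := by
      simp
    rw [e4, pa_append]
    refine ⟨pa_reverse.2 p1, pa_reverse.2 pbW, ?_, ?_⟩
    · intro x hx hx2
      exact d1 x (List.mem_reverse.1 hx) (List.mem_append_right _ (List.mem_reverse.1 hx2))
    · intro u hu v hv
      rw [List.getLast?_reverse] at hu
      rw [List.head?_reverse] at hv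
      refine (hjo v ?_ u ?_).symm
      · rw [e1, ← List.append_assoc, List.getLast?_append_of_ne_nil _ (by simp)]
        exact hv
      · rw [e1, List.head?_append_of_ne_nil _ (by simp)]
        exact hu
  · intro x hx hx2
    rcases List.mem_append.1 hx2 with h | h
    · exact d1 x (List.mem_append_left _ (List.mem_reverse.1 h)) (List.mem_append_left _ hx)
    · exact dY x hx (List.mem_cons_of_mem _ (List.mem_reverse.1 h))
  · intro x hx hx2
    exact hd x hx2 (by rw [e1]; exact List.mem_append_right _ (List.mem_append_left _ hx))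
  · intro x hx hx2
    refine hd x hx2 ?_
    rw [e1]
    rcases List.mem_append.1 hx with h | h
    · exact List.mem_append_left _ (List.mem_append_left _ (List.mem_reverse.1 h))
    · exact List.mem_append_right _ (List.mem_append_right _ (List.mem_cons_of_mem _
        (List.mem_reverse.1 h)))
  · rw [e1]
    simp only [List.length_append, List.length_cons, List.length_reverse, List.length_nil]
    omega

/-- no theta graph with at least seventeen vertices and a circuit with at least sixteen -/
def Sm (G : SimpleGraph V) : Prop := ∀ (a b : V) (A B C : List V), Theta G a b A B C → A ≠ [] →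
  B ≠ [] → 14 ≤ A.length + B.length → A.length + B.length + C.length ≤ 14

/-- **Graphs with minimum degree at least three, girth at least five and at least 18 vertices which
are 2-connected contain a theta graph with at least seventeen vertices which has a circuit with at
least sixteen vertices.** -/
theorem core [Fintype V] (hg : Gi G)
    (hd : ∀ x y, G.Adj x y → ∃ a b c, a ≠ b ∧ b ≠ c ∧ a ≠ c ∧ G.Adj x a ∧ G.Adj x b ∧ G.Adj x c)
    (hcon : Con2 G) (hS : Sm G) (T : Finset V) (hT : 18 ≤ T.card)
    (hT' : ∀ v ∈ T, ∃ w, G.Adj v w) : False := by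
  classical
  by_cases hc : ∀ l, Ci G l → l.length ≤ 15
  · exact core15 hg hd hcon hc T hT hT'
  push Not at hc
  obtain ⟨l, hl, hl16⟩ := hc
  have hcard : ∀ l, Ci G l → l.length ≤ Fintype.card V := fun l h => h.1.1.length_le_card
  obtain ⟨K, hK⟩ := exists_LC hcard ⟨l, hl⟩
  have hA : Adm G (Fintype.card V) := ⟨hg, hcon, hd, hcard, T, hT, hT'⟩
  have hK16 : 16 ≤ K.length := by
    have := hK.max l hl
    omega
  have hpos : 0 < K.length := by omega
  set f : ℕ → V := fun i => K.getD i (K[0]'hpos) with hf
  have hfi : ∀ i, i < K.length → K[i]? = some (f i) := by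
    intro i hi
    simp only [hf, List.getD_eq_getElem?_getD, List.getElem?_eq_getElem hi, Option.getD_some]
  have hfK : ∀ z ∈ K, ∃ i < K.length, z = f i := by
    intro z hz
    obtain ⟨i, hi⟩ := ix hz
    have hi' := idx_lt hi
    rw [hfi i hi'] at hi
    exact ⟨i, hi', (Option.some.inj hi).symm⟩
  have hadj : ∀ i j, i < K.length → j < K.length → Ai K.length i j → G.Adj (f i) (f j) :=
    fun i j hi hj h => adj_ix hK.ci (hfi i hi) (hfi j hj) h
  have hE : Emb G K.length 0 f := by
    refine ⟨?_, ?_, ?_, ?_⟩
    · intro i hi j hj hij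
      have h1 := hfi i hi
      rw [hij, ← hfi j hj] at h1
      exact (List.getElem?_inj hi hK.ci.1.1).1 h1
    · intro i j hij
      rw [Pool.Agent.R140.PK.row_bit] at hij
      simp at hij
    · intro i j hij
      rw [Pool.Agent.R140.PK.row_bit] at hij
      simp at hij
    · intro i hi
      by_cases h0 : i = 0
      · subst h0
        exact ⟨f 1, hadj 0 1 (by omega) (by omega) (Or.inl rfl)⟩
      · exact ⟨f (i - 1), hadj i (i - 1) (by omega) (by omega) (Or.inr (Or.inl (by omega)))⟩
  -- an ear gives a contradiction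
  have key : ∀ (i j : ℕ) (q : List V), i < j → j < K.length → Ear G f K.length i j q →
      (q = [] → 17 ≤ K.length ∧ i + 1 ≠ j ∧ ¬ (i = 0 ∧ j + 1 = K.length)) → False := by
    intro i j q hij hj hq hqn
    have hdis : ∀ x ∈ q, x ∉ K := by
      intro x hx hx2
      obtain ⟨m, hm, e⟩ := hfK x hx2
      exact hq.out x hx m hm e
    obtain ⟨Y, Z, hθ, hY, hYZ⟩ := theta_pos hK.ci (hfi i (by omega)) (hfi j hj) hij hq.pa hdis
    by_cases hq0 : q = []
    · obtain ⟨h1, h2, h3⟩ := hqn hq0
      have h4 := hS _ _ Y Z q hθ (by rintro rfl; simp at hY; omega)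
        (by rintro rfl; simp at hYZ; omega) (by omega)
      omega
    · have hf' : far K.length i j q.length := by
        have hpa := hq.pa
        have e : f i :: (q ++ [f j]) = [f i] ++ (q ++ [f j]) := rfl
        rw [e, pa_append, pa_append (l := q)] at hpa
        obtain ⟨_, ⟨p1, _, _, p2⟩, _, p3⟩ := hpa
        refine hK.ear (hfi i (by omega)) (hfi j hj) ?_ p1 hq0 hdis ?_ p2
        · intro e
          have := hE.inj i (by omega) j hj e
          omega
        · rwa [jo_append_right hq0] at p3
      have hql : 0 < q.length := List.length_pos_iff.mpr hq0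
      unfold far at hf'
      have h4 := hS _ _ Y Z q hθ (by rintro rfl; simp at hY; omega)
        (by rintro rfl; simp at hYZ; omega) (by omega)
      omega
  by_cases h17 : K.length ≤ 17
  · obtain ⟨x, hx, y, hy, hyx, q, hq, hE'⟩ := exists_ear' hA hE (by omega) h17
    exact key y x q.reverse hyx hx hE'.reverse (fun e => absurd (List.reverse_eq_nil_iff.1 e) hq)
  · obtain ⟨a, b, c, n1, n2, n3, a1, a2, a3⟩ := hd (f 0) (f 1)
      (hadj 0 1 (by omega) (by omega) (Or.inl rfl))
    obtain ⟨w, hw, hw1, hw2⟩ : ∃ w, G.Adj (f 0) w ∧ w ≠ f 1 ∧ w ≠ f (K.length - 1) := by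
      by_contra hcon'
      push Not at hcon'
      have g1 := hcon' a a1
      have g2 := hcon' b a2
      have g3 := hcon' c a3
      by_cases ha : a = f 1
      · have hb := g2 (fun h => n1 (ha.trans h.symm))
        have hc' := g3 (fun h => n3 (ha.trans h.symm))
        exact n2 (hb.trans hc'.symm)
      · have ha' := g1 ha
        by_cases hb : b = f 1
        · have hc' := g3 (fun h => n2 (hb.trans h.symm))
          exact n3 (ha'.trans hc'.symm)
        · exact n1 (ha'.trans (g2 hb).symm)
    by_cases hwK : ∃ y < K.length, w = f y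
    · obtain ⟨y, hy, rfl⟩ := hwK
      have hy0 : y ≠ 0 := by rintro rfl; exact hw.ne rfl
      have hy1 : y ≠ 1 := by rintro rfl; exact hw1 rfl
      have hy2 : y ≠ K.length - 1 := by rintro rfl; exact hw2 rfl
      refine key 0 y [] (by omega) hy ⟨?_, by simp⟩ (fun _ => ⟨by omega, by omega, by omega⟩)
      have e : f 0 :: ([] ++ [f y]) = [f 0] ++ [f y] := rfl
      rw [e, pa_append]
      refine ⟨pa_single _, pa_single _, ?_, jo_single.2 hw⟩
      intro u hu hu2
      simp only [List.mem_cons, List.mem_nil_iff, or_false] at hu hu2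
      exact hw.ne (by rw [← hu, ← hu2])
    · push Not at hwK
      obtain ⟨y, hy, hyx, q, hq, hE'⟩ := out_ear hA hE (by omega) (by omega : 0 < K.length) hw hwK
      exact key 0 y q (by omega) hy hE' (fun e => absurd e hq)

end

end Pool.Agent.U513.TH
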