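import Pool.Agent.U513.TH.Class
import Pool.Agent.N393.C13.Hfp

set_option autoImplicit false
set_option linter.unusedSectionVars false

/-!
# `1/2`-flow-pairs of multigraphs without large theta graphs
-/

namespace Pool.Agent.U513.TH

open Finset Relation Pool.Agent.H160R2.HF Pool.Agent.H179R3.HF Pool.Agent.TH499.NF
open Pool.Agent.R129.Hfp Pool.Agent.R140.PK Pool.Agent.N393.C13 Pool.Agent.N393.C13.Hf
open Pool.Agent.TH362.TF (nb padj IsPQ PQ Joins N1 NZ cut)

variable {V E : Type} [Fintype V] [Fintype E] [DecidableEq V] [DecidableEq E]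

theorem hp (s t : E → V) (hn : N1 s t univ) (hc : NoTheta s t univ) : Hp s t := by
  classical
  by_contra hcon
  obtain ⟨π, hπ, hM⟩ := exists_MinP Hp s t hn hcon
  rcases flow (fun e => π (s e)) (fun e => π (t e)) hM.n1 (hc.map hπ) with h1 | h1
  · exact hM.np (hp_of_nz hM.n1 h1)
  · obtain ⟨κ, c, hc⟩ := hM.pet h1 (fun A1 A2 a1 a2 b1 b2 b3 b4 b5 b6 b7 =>
      hp_sum A1 A2 a1 a2 b1 b2 b3 b4 b5 b6 b7)
    have hall : ∀ {κ c}, PetComp (fun e => π (s e)) (fun e => π (t e)) κ c →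
        Hp (ctr (nine c) (c (nb 0 0)) (fun e => π (s e)))
          (ctr (nine c) (c (nb 0 0)) (fun e => π (t e))) := by
      intro κ c hc
      obtain ⟨h2, h3⟩ := conn9 hc
      exact hM.mn _ _ (mem_nine.2 ⟨nb 0 0, nb_ne 0 0, rfl⟩) h2 h3
    refine hM.np ⟨(pet0 hc (hall hc)).1, fun w => ?_⟩
    by_cases hw : w ∈ nine c
    · obtain ⟨k, _, rfl⟩ := mem_nine.1 hw
      have h4 := rot hc k
      refine (pet0 h4 (hall h4)).2 _ fun h5 => ?_
      obtain ⟨l, hl, h6⟩ := mem_nine.1 h5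
      have h7 := hc.inj h6
      apply hl
      rw [← tau_sig k l, h7, tau_self]
    · exact (pet0 hc (hall hc)).2 w hw

end Pool.Agent.U513.TH
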