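import Pool.Agent.N393.C13.Lft

set_option autoImplicit false

/-!
# Theta graphs and contractions of connected sets
-/

namespace Pool.Agent.U513.TH

open Relation Pool.Agent.TH362.TF Pool.Agent.R145.Cir Pool.Agent.R890.FF Pool.Agent.R140.PK
  Pool.Agent.N393.C13

/-- a theta graph: three paths from `a` to `b` with inner vertices `A`, `B`, `C` -/
structure Theta {V : Type} (G : SimpleGraph V) (a b : V) (A B C : List V) : Prop where
  pa : Pa G (a :: (A ++ [b]))
  pb : Pa G (a :: (B ++ [b]))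
  pc : Pa G (a :: (C ++ [b]))
  ab : ∀ x ∈ A, x ∉ B
  ac : ∀ x ∈ A, x ∉ C
  bc : ∀ x ∈ B, x ∉ C

theorem first {V : Type} (p : V → Prop) : ∀ (r : List V), (∃ x ∈ r, p x) →
    ∃ R1 c R2, r = R1 ++ c :: R2 ∧ p c ∧ ∀ x ∈ R1, ¬ p x := by
  classical
  intro r
  induction r with
  | nil => rintro ⟨x, hx, _⟩; simp at hx
  | cons a r ih =>
    intro h
    by_cases ha : p a
    · exact ⟨[], a, r, rfl, ha, by simp⟩
    · obtain ⟨R1, c, R2, h1, h2, h3⟩ := ih (by
        obtain ⟨x, hx, hp⟩ := h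
        rcases List.mem_cons.1 hx with rfl | hx
        · exact absurd hp ha
        · exact ⟨x, hx, hp⟩)
      refine ⟨a :: R1, c, R2, by rw [h1]; rfl, h2, fun x hx => ?_⟩
      rcases List.mem_cons.1 hx with rfl | hx
      · exact ha
      · exact h3 x hx

section
variable {V : Type} {G : SimpleGraph V}

theorem jo_iff {l m : List V} {x y : V} (hx : l.getLast? = some x) (hy : m.head? = some y) :
    Jo G l m ↔ G.Adj x y := by
  unfold Jo
  rw [hx, hy]
  simp

theorem head_or {l : List V} {z : V} : (l ++ [z]).head? = some (l.headD z) := by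
  cases l <;> simp

/-- three paths in a set of vertices, from one vertex to three given ones -/
theorem tripod {q r : List V} {x1 x2 x3 : V} (hq : Pa G q) (q1 : q.head? = some x1)
    (q2 : q.getLast? = some x2) (hr : Pa G r) (r1 : r.head? = some x3)
    (r2 : r.getLast? = some x1) :
    ∃ (c : V) (X1 X2 X3 : List V),
      (∀ v ∈ c :: (X1 ++ (X2 ++ X3)), v ∈ q ∨ v ∈ r) ∧
      Pa G (c :: X1) ∧ Pa G (c :: X2) ∧ Pa G (c :: X3) ∧
      (c :: X1).getLast? = some x1 ∧ (c :: X2).getLast? = some x2 ∧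
      (c :: X3).getLast? = some x3 ∧
      (∀ x ∈ X1, x ∉ X2) ∧ (∀ x ∈ X1, x ∉ X3) ∧ (∀ x ∈ X2, x ∉ X3) := by
  obtain ⟨R1, c, R2, h1, h2, h3⟩ := first (fun v => v ∈ q) r
    ⟨x1, List.mem_of_mem_getLast? r2, List.mem_of_mem_head? q1⟩
  obtain ⟨Q1, Q2, h4⟩ := List.append_of_mem h2
  subst h1
  subst h4
  have e1 : Q1 ++ c :: Q2 = (Q1 ++ [c]) ++ Q2 := by simp
  have e2 : R1 ++ c :: R2 = (R1 ++ [c]) ++ R2 := by simp
  have p1 := hq
  rw [e1, pa_append] at p1
  have p2 := (pa_append.1 hq)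
  have p3 := hr
  rw [e2, pa_append] at p3
  refine ⟨c, Q1.reverse, Q2, R1.reverse, ?_, ?_, p2.2.1, ?_, ?_, ?_, ?_, ?_, ?_, ?_⟩
  · intro v hv
    simp only [List.mem_cons, List.mem_append, List.mem_reverse] at hv ⊢
    tauto
  · have := pa_reverse.2 p1.1
    simpa using this
  · have := pa_reverse.2 p3.1
    simpa using this
  · have : (c :: Q1.reverse).getLast? = (Q1 ++ [c]).head? := by
      rw [← List.getLast?_reverse]
      simp
    rw [this]
    rw [e1, List.head?_append_of_ne_nil _ (by simp)] at q1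
    exact q1
  · rw [List.getLast?_append_of_ne_nil _ (by simp)] at q2
    exact q2
  · have : (c :: R1.reverse).getLast? = (R1 ++ [c]).head? := by
      rw [← List.getLast?_reverse]
      simp
    rw [this]
    rw [e2, List.head?_append_of_ne_nil _ (by simp)] at r1
    exact r1
  · intro x hx hx2
    exact p2.2.2.1 x (List.mem_reverse.1 hx) (List.mem_cons_of_mem _ hx2)
  · intro x hx hx2
    exact h3 x (List.mem_reverse.1 hx2) (List.mem_append_left _ (List.mem_reverse.1 hx))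
  · intro x hx hx2
    exact h3 x (List.mem_reverse.1 hx2) (List.mem_append_right _ (List.mem_cons_of_mem _ hx))

/-- one of the three paths -/
theorem join {a b x z : V} {X M Z : List V} (hX : Pa G (a :: X))
    (hXl : (a :: X).getLast? = some x) (hZ : Pa G (b :: Z)) (hZl : (b :: Z).getLast? = some z)
    (hM : Pa G (x :: (M ++ [z]))) (d1 : ∀ v ∈ a :: X, v ∉ M) (d2 : ∀ v ∈ a :: X, v ∉ b :: Z)
    (d3 : ∀ v ∈ M, v ∉ b :: Z) : Pa G (a :: ((X ++ (M ++ Z.reverse)) ++ [b])) := by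
  have e : a :: ((X ++ (M ++ Z.reverse)) ++ [b]) = (a :: X) ++ (M ++ (b :: Z).reverse) := by simp
  have e1 : x :: (M ++ [z]) = [x] ++ (M ++ [z]) := rfl
  rw [e1, pa_append, pa_append (l := M)] at hM
  obtain ⟨_, ⟨m1, _, _, m2⟩, _, m3⟩ := hM
  have hZh : (b :: Z).reverse.head? = some z := by rw [List.head?_reverse, hZl]
  rw [e, pa_append, pa_append]
  refine ⟨hX, ⟨m1, pa_reverse.2 hZ, fun v hv hv2 => d3 v hv (List.mem_reverse.1 hv2), ?_⟩, ?_, ?_⟩
  · intro u hu v hv
    rw [hZh] at hv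
    exact m2 u hu v (by simpa using hv)
  · intro v hv hv2
    rcases List.mem_append.1 hv2 with h | h
    · exact d1 v hv h
    · exact d2 v hv (List.mem_reverse.1 h)
  · intro u hu v hv
    rw [hXl] at hu
    refine m3 u (by simpa using hu) v ?_
    rcases M with _ | ⟨m, M⟩
    · rw [List.nil_append, hZh] at hv
      simpa using hv
    · simpa using hv

end

section
variable {V E : Type} [Fintype V] [DecidableEq V] [DecidableEq E] {s t : E → V} {S : Finset E}
  {π : V → V}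

/-- the lift of the inner part of a path -/
theorem mid (hF : FC s t S π) {a b : V} {A : List V}
    (h : Pa (nbG (fun e => π (s e)) (fun e => π (t e)) S) (a :: (A ++ [b]))) :
    ∃ (x z : V) (M : List V), π x = a ∧ π z = b ∧ Pa (nbG s t S) (x :: (M ++ [z])) ∧
      A.length ≤ M.length ∧ ∀ v ∈ M, π v ∈ A := by
  have e : a :: (A ++ [b]) = [a] ++ (A ++ [b]) := rfl
  rw [e, pa_append, pa_append (l := A)] at h
  obtain ⟨_, ⟨p1, _, p2, p3⟩, p4, p5⟩ := h
  have hab : a ≠ b := by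
    rintro rfl
    exact p4 a (by simp) (by simp)
  have haA : a ∉ A := fun h => p4 a (by simp) (List.mem_append_left _ h)
  have hbA : b ∉ A := fun h => p2 b h (by simp)
  rcases A with _ | ⟨a1, A⟩
  · obtain ⟨x, z, hx, hz, hxz⟩ := Lft.adj (p5 a (by simp) b (by simp))
    refine ⟨x, z, [], hx, hz, ?_, le_rfl, by simp⟩
    have e2 : x :: ([] ++ [z]) = [x] ++ [z] := rfl
    rw [e2, pa_append]
    refine ⟨pa_single _, pa_single _, ?_, jo_single.2 hxz⟩
    intro v hv hv2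
    simp only [List.mem_cons, List.mem_nil_iff, or_false] at hv hv2
    exact hab (by rw [← hx, ← hz, ← hv, ← hv2])
  · obtain ⟨x, y, hx, hy, hxy⟩ := Lft.adj (p5 a (by simp) a1 (by simp))
    obtain ⟨c, hc⟩ : ∃ c, (a1 :: A).getLast? = some c := by
      rw [List.getLast?_cons]; exact ⟨_, rfl⟩
    obtain ⟨w, z, hw, hz, hwz⟩ := Lft.adj (p3 c (by rw [hc]; rfl) b (by simp))
    obtain ⟨q, q1, q2, q3, q4, q5⟩ := Lft.lift_path hF A a1 c p1 hc y hy w hw
    refine ⟨x, z, q, hx, hz, ?_, by simpa using q4, q5⟩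
    have e2 : x :: (q ++ [z]) = [x] ++ (q ++ [z]) := rfl
    rw [e2, pa_append, pa_append (l := q)]
    have hqne : q ≠ [] := by rintro rfl; simp at q2
    refine ⟨pa_single _, ⟨q1, pa_single _, ?_, ?_⟩, ?_, ?_⟩
    · intro v hv hv2
      simp only [List.mem_cons, List.mem_nil_iff, or_false] at hv2
      subst hv2
      exact hbA (hz ▸ q5 v hv)
    · rw [jo_iff q3 (y := z) (by simp)]
      exact hwz
    · intro v hv hv2
      simp only [List.mem_cons, List.mem_nil_iff, or_false] at hv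
      subst hv
      rcases List.mem_append.1 hv2 with h | h
      · exact haA (hx ▸ q5 v h)
      · simp only [List.mem_cons, List.mem_nil_iff, or_false] at h
        exact hab (by rw [← hx, ← hz, h])
    · rw [jo_append_right hqne, jo_iff (x := x) (by simp) q2]
      exact hxy

/-- **theta graphs of contractions can be lifted** -/
theorem Theta.lift (hF : FC s t S π) {a b : V} {A B C : List V}
    (h : Theta (nbG (fun e => π (s e)) (fun e => π (t e)) S) a b A B C) :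
    ∃ (a' b' : V) (A' B' C' : List V), Theta (nbG s t S) a' b' A' B' C' ∧
      A.length ≤ A'.length ∧ B.length ≤ B'.length ∧ C.length ≤ C'.length := by
  obtain ⟨x1, z1, M1, hx1, hz1, hM1, l1, m1⟩ := mid hF h.pa
  obtain ⟨x2, z2, M2, hx2, hz2, hM2, l2, m2⟩ := mid hF h.pb
  obtain ⟨x3, z3, M3, hx3, hz3, hM3, l3, m3⟩ := mid hF h.pc
  obtain ⟨q, q1, q2, q3, q4⟩ := Lft.conn hF (x := x1) (y := x2) (hx1.trans hx2.symm)
  obtain ⟨r, r1, r2, r3, r4⟩ := Lft.conn hF (x := x3) (y := x1) (hx3.trans hx1.symm)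
  obtain ⟨a', X1, X2, X3, h1, h2, h3, h4, h5, h6, h7, h8, h9, h10⟩ :=
    tripod q1 q2 q3 r1 r2 r3
  obtain ⟨q', q1', q2', q3', q4'⟩ := Lft.conn hF (x := z1) (y := z2) (hz1.trans hz2.symm)
  obtain ⟨r', r1', r2', r3', r4'⟩ := Lft.conn hF (x := z3) (y := z1) (hz3.trans hz1.symm)
  obtain ⟨b', Z1, Z2, Z3, k1, k2, k3, k4, k5, k6, k7, k8, k9, k10⟩ :=
    tripod q1' q2' q3' r1' r2' r3'
  have fa : ∀ v ∈ a' :: (X1 ++ (X2 ++ X3)), π v = a := by
    intro v hv
    rcases h1 v hv with h | h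
    · rw [q4 v h, hx1]
    · rw [r4 v h, hx3]
  have fb : ∀ v ∈ b' :: (Z1 ++ (Z2 ++ Z3)), π v = b := by
    intro v hv
    rcases k1 v hv with h | h
    · rw [q4' v h, hz1]
    · rw [r4' v h, hz3]
  have sep : ∀ {L : List V}, Pa (nbG (fun e => π (s e)) (fun e => π (t e)) S) (a :: (L ++ [b])) →
      a ≠ b ∧ a ∉ L ∧ b ∉ L := by
    intro L hL
    have e : a :: (L ++ [b]) = [a] ++ (L ++ [b]) := rfl
    rw [e, pa_append, pa_append (l := L)] at hL
    obtain ⟨_, ⟨_, _, p2, _⟩, p4, _⟩ := hL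
    exact ⟨fun h => p4 a (by simp) (by simp [h]), fun h => p4 a (by simp)
      (List.mem_append_left _ h), fun h => p2 b h (by simp)⟩
  obtain ⟨hab, haA, hbA⟩ := sep h.pa
  obtain ⟨-, haB, hbB⟩ := sep h.pb
  obtain ⟨-, haC, hbC⟩ := sep h.pc
  have dX : ∀ v, v ∈ a' :: (X1 ++ (X2 ++ X3)) → v ∉ b' :: (Z1 ++ (Z2 ++ Z3)) := by
    intro v hv hv2
    exact hab ((fa v hv).symm.trans (fb v hv2))
  have i1 : ∀ v ∈ a' :: X1, v ∈ a' :: (X1 ++ (X2 ++ X3)) := by
    intro v hv; simp only [List.mem_cons, List.mem_append] at hv ⊢; tauto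
  have i2 : ∀ v ∈ a' :: X2, v ∈ a' :: (X1 ++ (X2 ++ X3)) := by
    intro v hv; simp only [List.mem_cons, List.mem_append] at hv ⊢; tauto
  have i3 : ∀ v ∈ a' :: X3, v ∈ a' :: (X1 ++ (X2 ++ X3)) := by
    intro v hv; simp only [List.mem_cons, List.mem_append] at hv ⊢; tauto
  have j1 : ∀ v ∈ b' :: Z1, v ∈ b' :: (Z1 ++ (Z2 ++ Z3)) := by
    intro v hv; simp only [List.mem_cons, List.mem_append] at hv ⊢; tauto
  have j2 : ∀ v ∈ b' :: Z2, v ∈ b' :: (Z1 ++ (Z2 ++ Z3)) := by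
    intro v hv; simp only [List.mem_cons, List.mem_append] at hv ⊢; tauto
  have j3 : ∀ v ∈ b' :: Z3, v ∈ b' :: (Z1 ++ (Z2 ++ Z3)) := by
    intro v hv; simp only [List.mem_cons, List.mem_append] at hv ⊢; tauto
  refine ⟨a', b', X1 ++ (M1 ++ Z1.reverse), X2 ++ (M2 ++ Z2.reverse), X3 ++ (M3 ++ Z3.reverse),
    ⟨?_, ?_, ?_, ?_, ?_, ?_⟩, ?_, ?_, ?_⟩
  · refine join h2 h5 k2 k5 hM1 ?_ (fun v hv hv2 => dX v (i1 v hv) (j1 v hv2)) ?_
    · intro v hv hv2
      exact haA (fa v (i1 v hv) ▸ m1 v hv2)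
    · intro v hv hv2
      exact hbA (fb v (j1 v hv2) ▸ m1 v hv)
  · refine join h3 h6 k3 k6 hM2 ?_ (fun v hv hv2 => dX v (i2 v hv) (j2 v hv2)) ?_
    · intro v hv hv2
      exact haB (fa v (i2 v hv) ▸ m2 v hv2)
    · intro v hv hv2
      exact hbB (fb v (j2 v hv2) ▸ m2 v hv)
  · refine join h4 h7 k4 k7 hM3 ?_ (fun v hv hv2 => dX v (i3 v hv) (j3 v hv2)) ?_
    · intro v hv hv2
      exact haC (fa v (i3 v hv) ▸ m3 v hv2)
    · intro v hv hv2
      exact hbC (fb v (j3 v hv2) ▸ m3 v hv)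
  · intro v hv hv2
    simp only [List.mem_append, List.mem_reverse] at hv hv2
    rcases hv with hv | hv | hv <;> rcases hv2 with hv2 | hv2 | hv2
    · exact h8 v hv hv2
    · exact haB (fa v (i1 v (List.mem_cons_of_mem _ hv)) ▸ m2 v hv2)
    · exact dX v (i1 v (List.mem_cons_of_mem _ hv)) (j2 v (List.mem_cons_of_mem _ hv2))
    · exact haA (fa v (i2 v (List.mem_cons_of_mem _ hv2)) ▸ m1 v hv)
    · exact h.ab _ (m1 v hv) (m2 v hv2)
    · exact hbA (fb v (j2 v (List.mem_cons_of_mem _ hv2)) ▸ m1 v hv)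
    · exact dX v (i2 v (List.mem_cons_of_mem _ hv2)) (j1 v (List.mem_cons_of_mem _ hv))
    · exact hbB (fb v (j1 v (List.mem_cons_of_mem _ hv)) ▸ m2 v hv2)
    · exact k8 v hv hv2
  · intro v hv hv2
    simp only [List.mem_append, List.mem_reverse] at hv hv2
    rcases hv with hv | hv | hv <;> rcases hv2 with hv2 | hv2 | hv2
    · exact h9 v hv hv2
    · exact haC (fa v (i1 v (List.mem_cons_of_mem _ hv)) ▸ m3 v hv2)
    · exact dX v (i1 v (List.mem_cons_of_mem _ hv)) (j3 v (List.mem_cons_of_mem _ hv2))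
    · exact haA (fa v (i3 v (List.mem_cons_of_mem _ hv2)) ▸ m1 v hv)
    · exact h.ac _ (m1 v hv) (m3 v hv2)
    · exact hbA (fb v (j3 v (List.mem_cons_of_mem _ hv2)) ▸ m1 v hv)
    · exact dX v (i3 v (List.mem_cons_of_mem _ hv2)) (j1 v (List.mem_cons_of_mem _ hv))
    · exact hbC (fb v (j1 v (List.mem_cons_of_mem _ hv)) ▸ m3 v hv2)
    · exact k9 v hv hv2
  · intro v hv hv2
    simp only [List.mem_append, List.mem_reverse] at hv hv2
    rcases hv with hv | hv | hv <;> rcases hv2 with hv2 | hv2 | hv2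
    · exact h10 v hv hv2
    · exact haC (fa v (i2 v (List.mem_cons_of_mem _ hv)) ▸ m3 v hv2)
    · exact dX v (i2 v (List.mem_cons_of_mem _ hv)) (j3 v (List.mem_cons_of_mem _ hv2))
    · exact haB (fa v (i3 v (List.mem_cons_of_mem _ hv2)) ▸ m2 v hv)
    · exact h.bc _ (m2 v hv) (m3 v hv2)
    · exact hbB (fb v (j3 v (List.mem_cons_of_mem _ hv2)) ▸ m2 v hv)
    · exact dX v (i3 v (List.mem_cons_of_mem _ hv2)) (j2 v (List.mem_cons_of_mem _ hv))
    · exact hbC (fb v (j2 v (List.mem_cons_of_mem _ hv)) ▸ m3 v hv2)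
    · exact k10 v hv hv2
  · simp only [List.length_append]; omega
  · simp only [List.length_append]; omega
  · simp only [List.length_append]; omega

end

end Pool.Agent.U513.TH
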